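import Mathlib
import Pool.Agent.H26.FB2

set_option autoImplicit false

open Filter Topology MeasureTheory

namespace Pool.Agent.Results.MP_93c18e_an.Proof

open H26 FB0 FB1 FB2

def L1Pre (E : Type) [NormedAddCommGroup E] [NormedSpace ℝ E] : Prop :=
  ∃ (Ω : Type) (_ : MeasurableSpace Ω) (μ : Measure Ω) (e : (E →L[ℝ] ℝ) →ₗᵢ[ℝ] Lp ℝ 1 μ),
    Function.Surjective e

lemma approx {Ω : Type} [MeasurableSpace Ω] (μ : Measure Ω) {m : ℕ} (g : Fin m → Lp ℝ 1 μ) {η : ℝ}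
    (hη : 0 < η) : ∃ (J : Finset (Fin m → ℝ)) (u : (Fin m → ℝ) → Lp ℝ 1 μ),
      (∀ k, ‖g k - ∑ c ∈ J, c k • u c‖ ≤ η) ∧
      ∀ a : (Fin m → ℝ) → ℝ, ‖∑ c ∈ J, a c • u c‖ = ∑ c ∈ J, |a c| * ‖u c‖ := by
  classical
  have hG := memLp_pi_iff.2 fun k => Lp.memLp (g k)
  obtain ⟨s, hs⟩ := (Lp.simpleFunc.denseRange (E := Fin m → ℝ) (μ := μ) (p := 1) (by simp)).exists_dist_lt
    hG.toLp hη
  let S := Lp.simpleFunc.toSimpleFunc s
  let u : (Fin m → ℝ) → Lp ℝ 1 μ := fun c => if h : c = 0 then 0 else indicatorConstLp 1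
    (S.measurableSet_fiber c) (S.measure_preimage_lt_top_of_memLp one_ne_zero (by simp)
      (Lp.simpleFunc.memLp s) c h).ne 1
  have h1 : ∀ c, ∀ᵐ ω ∂μ, u c ω = if S ω = c ∧ c ≠ 0 then 1 else 0 := fun c => by
    by_cases h : c = 0
    · simp only [u, dif_pos h]
      exact (Lp.coeFn_zero ℝ 1 μ).mono fun ω hω => hω.trans (by simp [h])
    · simp only [u, dif_neg h]
      exact indicatorConstLp_coeFn.mono fun ω hω => hω.trans (by simp [Set.indicator, h])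
  have h2 : ∀ a : (Fin m → ℝ) → ℝ, ∀ᵐ ω ∂μ, (∑ c ∈ S.range, a c • u c) ω =
      if S ω = 0 then 0 else a (S ω) := fun a => by
    filter_upwards [Lp.coeFn_fun_finsetSum S.range fun c => a c • u c, (eventually_all_finset S.range).2
      fun c _ => (Lp.coeFn_smul (a c) (u c)).and (h1 c)] with ω h h'
    rw [h, Finset.sum_eq_single_of_mem (S ω) (S.mem_range_self ω) fun c hc hc' => by
      simp [(h' c hc).1, (h' c hc).2, hc'.symm], (h' _ (S.mem_range_self ω)).1, Pi.smul_apply,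
      (h' _ (S.mem_range_self ω)).2]
    split_ifs <;> simp_all
  refine ⟨S.range, u, fun k => (Lp.norm_le_norm_of_ae_le ?_).trans ((dist_eq_norm _ _).ge.trans hs.le),
    fun a => ?_⟩
  · filter_upwards [h2 (· k), Lp.coeFn_sub (g k) (∑ c ∈ S.range, c k • u c), Lp.coeFn_sub hG.toLp s,
      hG.coeFn_toLp, Lp.simpleFunc.toSimpleFunc_eq_toFun s] with ω a1 a2 a3 a4 a5
    rw [a2, a3, Pi.sub_apply, Pi.sub_apply, a1, a4, ← a5]
    refine le_trans (le_of_eq ?_) (norm_le_pi_norm _ k)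
    split_ifs with h
    exacts [by rw [show Lp.simpleFunc.toSimpleFunc s ω = 0 from h]; rfl, rfl]
  · have h3 : ∀ f f' : Lp ℝ 1 μ, (∀ᵐ ω ∂μ, ‖f ω‖ = f' ω) → ‖f‖ = L1.integralCLM f' := fun f f' h => by
      rw [L1.norm_eq_integral_norm, ← L1.integral_eq, L1.integral_eq_integral, integral_congr_ae h]
    rw [h3 _ (∑ c ∈ S.range, |a c| • u c), map_sum]
    · refine Finset.sum_congr rfl fun c _ => ?_
      rw [map_smul, h3 _ (u c) ((h1 c).mono fun ω h => by rw [h]; split_ifs <;> simp), smul_eq_mul]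
    · filter_upwards [h2 a, h2 fun c => |a c|] with ω a1 a2
      rw [a1, a2]
      split_ifs <;> simp

section
variable {E : Type} [NormedAddCommGroup E] [NormedSpace ℝ E]

lemma approx' (h : L1Pre E) {m : ℕ} (g : Fin m → E →L[ℝ] ℝ) {η : ℝ} (hη : 0 < η) :
    ∃ (J : Finset (Fin m → ℝ)) (u : (Fin m → ℝ) → E →L[ℝ] ℝ), (∀ k, ‖g k - ∑ c ∈ J, c k • u c‖ ≤ η) ∧
      ∀ a : (Fin m → ℝ) → ℝ, ‖∑ c ∈ J, a c • u c‖ = ∑ c ∈ J, |a c| * ‖u c‖ := by
  obtain ⟨Ω, _, μ, e, he⟩ := h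
  obtain ⟨J, u, h1, h2⟩ := approx μ (fun k => e (g k)) hη
  choose v hv using fun c => he (u c)
  exact ⟨J, v, fun k => by simpa [← e.norm_map, hv] using h1 k, fun a => by
    simpa [← e.norm_map, hv] using h2 a⟩

lemma hb {Y : Submodule ℝ E} {x : E} {η : ℝ} (h0 : 0 < η) (h1 : η ≤ 1 / 2)
    (h : ∀ z ∈ Y, ∀ c : ℝ, (1 - η) * (‖z‖ + |c|) ≤ ‖z + c • x‖) (u : E →L[ℝ] ℝ) {θ : ℝ}
    (hθ : |θ| ≤ ‖u‖) : ∃ ψ : E →L[ℝ] ℝ, ‖ψ‖ ≤ (1 + 2 * η) * ‖u‖ ∧ (∀ z ∈ Y, ψ z = u z) ∧ ψ x = θ := by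
  obtain ⟨ζ, z1, z2⟩ := Submodule.exists_le_ker_of_notMem (p := Y) (v := x) fun hx => by
    have := h (-x) (Y.neg_mem hx) 1
    simp only [one_smul, neg_add_cancel, norm_zero, abs_one] at this
    nlinarith [norm_nonneg (-x)]
  let φ := u.toLinearMap + ((θ - u x) / ζ x) • ζ
  have h2 : ∀ z ∈ Y, ∀ c : ℝ, φ (z + c • x) = u z + c * θ := fun z hz c => by
    simp [φ, show ζ z = 0 from z2 hz]; field_simp; ring
  have h3 : ∀ v : (Y ⊔ Submodule.span ℝ {x} :), ‖φ.domRestrict _ v‖ ≤ (1 + 2 * η) * ‖u‖ * ‖v‖ := by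
    rintro ⟨v, hv⟩
    obtain ⟨z, hz, _, hw, rfl⟩ := Submodule.mem_sup.1 hv
    obtain ⟨c, rfl⟩ := Submodule.mem_span_singleton.1 hw
    change |φ (z + c • x)| ≤ _ * ‖z + c • x‖
    have h4 : |u z + c * θ| ≤ ‖u‖ * (‖z‖ + |c|) := (abs_add_le _ _).trans (by
      rw [abs_mul, mul_add, mul_comm |c|]
      exact add_le_add (u.le_opNorm z) (mul_le_mul_of_nonneg_right hθ (abs_nonneg c)))
    rw [h2 z hz]
    refine h4.trans (le_trans ?_ (mul_le_mul_of_nonneg_left (h z hz c) (by positivity)))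
    nlinarith [mul_nonneg (mul_nonneg (norm_nonneg u) (add_nonneg (norm_nonneg z) (abs_nonneg c)))
      (mul_nonneg h0.le (sub_nonneg.2 h1))]
  obtain ⟨ψ, p1, p2⟩ := exists_extension_norm_eq _ ((φ.domRestrict _).mkContinuous _ h3)
  refine ⟨ψ, p2.trans_le (LinearMap.mkContinuous_norm_le _ (by positivity) _), fun z hz =>
    (p1 ⟨z, Submodule.mem_sup_left hz⟩).trans (by simpa using h2 z hz 0),
    (p1 ⟨x, Submodule.mem_sup_right (Submodule.mem_span_singleton_self x)⟩).trans (by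
      simpa using h2 0 Y.zero_mem 1)⟩

lemma daug_oct [Nontrivial E] (h : Daug E) : Oct E := by
  obtain ⟨x₀, h0⟩ := exists_norm_eq E zero_le_one
  refine oct_of_finite x₀ h0 fun s hs hs' ε hε => ?_
  suffices ∃ (φ : E →L[ℝ] ℝ) (r : ℝ), 0 < r ∧ r < ‖φ‖ ∧ ∀ y, ‖y‖ ≤ 1 → r < φ y →
      ∀ x ∈ s, 2 - ε ≤ ‖x + y‖ by
    obtain ⟨φ, r, -, r1, r2⟩ := this
    obtain ⟨y, y1, y2⟩ := φ.exists_lt_apply_of_lt_opNorm r1
    rcases lt_abs.1 y2 with h | h
    exacts [⟨y, y1.le, r2 y y1.le h⟩, ⟨-y, by simpa using y1.le, r2 _ (by simpa using y1.le) (by simpa)⟩]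
  induction s, hs using Set.Finite.induction_on with
  | empty =>
    obtain ⟨φ, h1, -⟩ := exists_dual_vector ℝ x₀ (h0 ▸ one_ne_zero)
    exact ⟨φ, 1 / 2, one_half_pos, one_half_lt_one.trans_eq h1.symm, by simp⟩
  | @insert x s _ _ ih =>
    obtain ⟨φ, r, r0, r1, r2⟩ := ih fun y hy => hs' y (Set.mem_insert_of_mem _ hy)
    have hx := hs' x (Set.mem_insert _ _)
    have h1 := h (φ.smulRight x) (by
      rw [RankOne, ContinuousLinearMap.range_smulRight_apply (norm_pos_iff.1 (r0.trans r1))]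
      exact finrank_span_singleton (norm_pos_iff.1 (hx ▸ one_pos)))
    rw [ContinuousLinearMap.norm_smulRight_apply, hx, mul_one] at h1
    obtain ⟨δ, d0, d1⟩ := exists_between (lt_min (sub_pos.2 r1) (lt_min (half_pos hε)
      (mul_pos (r0.trans r1) (half_pos hε))))
    simp only [lt_min_iff] at d1
    obtain ⟨y, y1, y2⟩ := (ContinuousLinearMap.id ℝ E + φ.smulRight x).exists_lt_apply_of_lt_opNorm
      ((sub_lt_self _ d0).trans_eq h1.symm)
    obtain ⟨ψ, p1, p2, y, y1, p3⟩ : ∃ ψ : E →L[ℝ] ℝ, ‖ψ‖ ≤ 1 ∧ 0 ≤ ψ x ∧ ∃ y, ‖y‖ ≤ 1 ∧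
        1 + ‖φ‖ - δ < (ψ + ψ x • φ) y := by
      obtain ⟨ψ, p1, p2⟩ := exists_dual_vector'' ℝ (y + φ y • x)
      have := y2.trans_eq p2.symm
      rcases le_total 0 (ψ x) with h | h
      · exact ⟨ψ, p1, h, y, y1.le, by simpa [mul_comm] using this⟩
      · exact ⟨-ψ, by simpa, by simpa, -y, by simpa using y1.le, by simpa [mul_comm] using this⟩
    refine ⟨ψ + ψ x • φ, 1 + ‖φ‖ - δ, by linarith, p3.trans_le ((le_abs_self _).trans
      ((ψ + ψ x • φ).unit_le_opNorm y y1)), fun z hz hz' => ?_⟩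
    have h2 := (le_abs_self _).trans ((ψ.le_of_opNorm_le_of_le p1 hz).trans_eq (one_mul _))
    have h3 := (le_abs_self _).trans ((ψ.le_of_opNorm_le_of_le p1 hx.le).trans_eq (one_mul _))
    have h4 := (le_abs_self _).trans (φ.unit_le_opNorm z hz)
    simp only [add_apply, smul_apply, smul_eq_mul] at hz'
    have h5 : 0 < φ z := by
      by_contra! h5
      nlinarith
    have h6 : ψ x * φ z ≤ ψ x * ‖φ‖ := mul_le_mul_of_nonneg_left h4 p2
    have h7 : ψ x * φ z ≤ 1 * φ z := mul_le_mul_of_nonneg_right h3 h5.le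
    intro w hw
    rcases Set.mem_insert_iff.1 hw with hw | hw
    · have := (le_abs_self _).trans (ψ.le_of_opNorm_le p1 (x + z))
      have h8 : 1 - ε / 2 < ψ x := lt_of_mul_lt_mul_right (a := ‖φ‖) (by nlinarith) (norm_nonneg _)
      rw [map_add] at this
      rw [hw]
      linarith
    · exact r2 z hz (by linarith) _ hw

variable {X : Type} [NormedAddCommGroup X] [NormedSpace ℝ X] {ι : X → (E →L[ℝ] ℝ) → ℝ}

lemma per (hE : L1Pre E) (h : IsModel ι) (f : X) (hf : ‖f‖ = 1) {η : ℝ} (h0 : 0 < η) (h1 : η ≤ 1 / 8) :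
    ∃ I : Finset E, ∀ (Y : Submodule ℝ E) (x : E), (∀ v ∈ I, v ∈ Y) →
      (∀ z ∈ Y, ∀ c : ℝ, (1 - η) * (‖z‖ + |c|) ≤ ‖z + c • x‖) → ∃ (m : ℕ) (q : Fin m → E →L[ℝ] ℝ),
        (∀ v, ‖v‖ ≤ 1 → ∑ k, |q k v| ≤ 1 + 4 * η) ∧ 1 - 2 * η ≤ ∑ k, |q k x| ∧
        1 - 2 * η ≤ ∑ k, |ι f (q k)| := by
  obtain ⟨m, p, p1, p2⟩ := m_lt h ((sub_lt_self 1 h0).trans_eq hf.symm)
  have m0 : 0 < η / (m + 1) := by positivity
  have m1 : ∑ _ : Fin m, η / (m + 1) ≤ η := by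
    simp only [Finset.sum_const, Finset.card_univ, Fintype.card_fin, nsmul_eq_mul]
    rw [mul_div_assoc', div_le_iff₀ (by positivity)]; nlinarith
  obtain ⟨I, δ, d0, hδ⟩ := m_cont h f m0
  have s0 : 0 ≤ ∑ v ∈ I, ‖v‖ := by positivity
  obtain ⟨J, u, u1, u2⟩ := approx' hE p (lt_min m0 (show 0 < δ / (∑ v ∈ I, ‖v‖ + 1) by positivity))
  have k1 : ∀ σ : Fin m → ℝ, (∀ k, σ k * σ k = 1) →
      |‖∑ k, σ k • p k‖ - ∑ c ∈ J, |∑ k, σ k * c k| * ‖u c‖| ≤ η := fun σ hσ => by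
    rw [← u2]
    refine (abs_norm_sub_norm_le _ _).trans (le_trans ?_ m1)
    simp only [Finset.sum_smul, mul_smul]
    rw [Finset.sum_comm, ← Finset.sum_sub_distrib]
    refine norm_sum_le_of_le _ fun k _ => ?_
    rw [← Finset.smul_sum]
    refine (congrArg norm (smul_sub _ _ _).symm).trans_le ?_
    rw [norm_smul, show ‖σ k‖ = 1 by
      nlinarith [abs_mul_abs_self (σ k), abs_nonneg (σ k), hσ k, Real.norm_eq_abs (σ k)], one_mul]
    exact (u1 k).trans (min_le_left _ _)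
  have k2 : ∀ (q : Fin m → E →L[ℝ] ℝ) v, ∃ σ : Fin m → ℝ, (∀ k, σ k * σ k = 1) ∧
      ∑ k, |q k v| = (∑ k, σ k • q k) v := fun q v => by
    choose σ s1 s2 using fun k => exists_sign (q k v)
    exact ⟨σ, s1, by simp [s2]⟩
  have k3 : ∀ (q : Fin m → E →L[ℝ] ℝ) v (σ : Fin m → ℝ), (∀ k, σ k * σ k = 1) →
      |(∑ k, σ k • q k) v| ≤ ∑ k, |q k v| := fun q v σ hσ => by
    simp only [ContinuousLinearMap.sum_apply, smul_apply, smul_eq_mul]
    refine (Finset.abs_sum_le_sum_abs _ _).trans_eq (Finset.sum_congr rfl fun k _ => ?_)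
    rw [abs_mul, show |σ k| = 1 by nlinarith [abs_mul_abs_self (σ k), abs_nonneg (σ k), hσ k], one_mul]
  obtain ⟨σ, s1, s2⟩ : ∃ σ : Fin m → ℝ, (∀ k, σ k * σ k = 1) ∧ 1 - η ≤ ‖∑ k, σ k • p k‖ := by
    by_contra! H
    have := m_tuple h f p (c := 1 - η) (by linarith) fun v hv => by
      obtain ⟨σ, s1, s2⟩ := k2 p v
      exact s2.trans_le ((le_abs_self _).trans (((∑ k, σ k • p k).unit_le_opNorm v hv).trans (H σ s1).le))
    rw [hf] at this
    linarith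
  refine ⟨I, fun Y x hI hx => ?_⟩
  choose θ t1 t2 using fun c : Fin m → ℝ => exists_sign (∑ k, σ k * c k)
  choose ψ q1 q2 q3 using fun c => hb h0 (by linarith) hx (u c) (θ := θ c * ‖u c‖) (by
    rw [abs_mul, show |θ c| = 1 by nlinarith [abs_mul_abs_self (θ c), abs_nonneg (θ c), t1 c],
      one_mul, abs_norm])
  have k4 : ∀ (τ : Fin m → ℝ) v, (∑ k, τ k • ∑ c ∈ J, c k • ψ c) v =
      ∑ c ∈ J, (∑ k, τ k * c k) * ψ c v := fun τ v => by
    simp only [ContinuousLinearMap.sum_apply, smul_apply, smul_eq_mul, Finset.mul_sum, Finset.sum_mul,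
      mul_assoc]
    exact Finset.sum_comm
  have k5 : ∀ v, ‖v‖ ≤ 1 → ∑ k, |(∑ c ∈ J, c k • ψ c) v| ≤ 1 + 4 * η := fun v hv => by
    obtain ⟨τ, s1, s2⟩ := k2 (fun k => ∑ c ∈ J, c k • ψ c) v
    have h2 : ‖∑ k, τ k • p k‖ ≤ 1 := ContinuousLinearMap.opNorm_le_of_unit_norm zero_le_one
      fun v hv => (k3 p v τ s1).trans (p1 v hv.le)
    rw [s2, k4]
    refine (Finset.sum_le_sum (g := fun c => (1 + 2 * η) * (|∑ k, τ k * c k| * ‖u c‖)) fun c _ =>
      (le_abs_self _).trans ?_).trans ?_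
    · rw [abs_mul, mul_left_comm]
      exact mul_le_mul_of_nonneg_left (((ψ c).unit_le_opNorm v hv).trans (q1 c)) (abs_nonneg _)
    · rw [← Finset.mul_sum]
      nlinarith [abs_le.1 (k1 τ s1)]
  have k6 : ∀ {q : Fin m → E →L[ℝ] ℝ} {c : ℝ}, 0 ≤ c → c ≤ 2 → (∀ v, ‖v‖ ≤ 1 → ∑ k, |q k v| ≤ c) →
      ∀ k, ‖q k‖ ≤ 2 := fun {q c} c0 c1 H k => (ContinuousLinearMap.opNorm_le_of_unit_norm c0 fun v hv =>
        (Finset.single_le_sum (fun i _ => abs_nonneg (q i v)) (Finset.mem_univ k)).trans (H v hv.le)).trans c1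
  refine ⟨m, _, k5, le_trans ?_ ((le_abs_self _).trans (k3 _ x σ s1)), le_trans ?_
    (Finset.sum_le_sum (f := fun k => |ι f (p k)| - η / (m + 1)) fun k _ => ?_)⟩
  · rw [k4]
    simp only [q3, ← mul_assoc, mul_comm _ (θ _), t2]
    linarith [abs_le.1 (k1 σ s1)]
  · rw [Finset.sum_sub_distrib]; linarith
  · linarith [abs_sub_abs_le_abs_sub (ι f (p k)) (ι f (∑ c ∈ J, c k • ψ c)), hδ _ _ (k6 zero_le_one
      one_le_two p1 k) (k6 (by positivity) (by linarith) k5 k) fun v hv => by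
        rw [show (∑ c ∈ J, c k • ψ c) v = (∑ c ∈ J, c k • u c) v by simp [q2 _ v (hI v hv)]]
        refine ((p k - ∑ c ∈ J, c k • u c).le_of_opNorm_le_of_le ((u1 k).trans (min_le_right _ _))
          ((Finset.single_le_sum (fun v _ => norm_nonneg v) hv).trans (le_add_of_nonneg_right
            zero_le_one))).trans_eq (div_mul_cancel₀ _ (by positivity))]

lemma main (hE : L1Pre E) (h : IsModel ι) (H : Oct E) : Oct X := by
  obtain ⟨e, he, -⟩ := H ⊥ inferInstance 1 one_pos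
  obtain ⟨φ, f1, f2⟩ := exists_dual_vector ℝ e (he ▸ one_ne_zero)
  obtain ⟨a, ha⟩ := m_gen h (Gen.delta e)
  refine oct_of_finite a (le_antisymm ((m_dom h a e fun z => by rw [ha]).trans_eq he) (by
    have := single (mem h a).1 φ one_pos f1.le
    rw [← h.2.2] at this
    simpa [ha, f2, he] using this)) fun s hs hs' ε hε => ?_
  obtain ⟨η, η0, η1, η2⟩ : ∃ η > 0, η ≤ ε / 17 ∧ η ≤ 1 / 8 :=
    ⟨min (ε / 17) (1 / 8), by positivity, min_le_left _ _, min_le_right _ _⟩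
  haveI := hs.to_subtype
  choose I hI using fun f : s => per hE h f.1 (hs' _ f.2) η0 η2
  obtain ⟨x, x1, x2⟩ := H (Submodule.span ℝ (insert e (⋃ f, ↑(I f)))) (.span_of_finite ℝ
    ((Set.finite_iUnion fun f => (I f).finite_toSet).insert e)) η η0
  choose m q q1 q2 q3 using fun f => hI f _ x (fun v hv => Submodule.subset_span
    (Set.mem_insert_of_mem _ (Set.mem_iUnion.2 ⟨f, hv⟩))) x2
  obtain ⟨χ, c1, c2, c3⟩ := hb η0 (by linarith) x2 φ (θ := 0) (by simp)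
  have m0 : ∀ f, 0 < η / (m f + 1) := fun f => by positivity
  have m1 : ∀ f, ∑ _ : Fin (m f), η / (m f + 1) ≤ η := fun f => by
    simp only [Finset.sum_const, Finset.card_univ, Fintype.card_fin, nsmul_eq_mul]
    rw [mul_div_assoc', div_le_iff₀ (by positivity)]; nlinarith
  choose δ d0 hδ using fun f : s => m_cont' h f.1 χ (m0 f)
  obtain ⟨τ, t0, t1⟩ := (eventually_mem_nhdsWithin.and (eventually_all.2 fun f => Ioo_mem_nhdsGT
    (lt_min (d0 f) (m0 f)))).exists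
  choose σ s1 s2 using fun j : Σ f, Fin (m f) => exists_sign (ι j.1 (q j.1 j.2))
  obtain ⟨y, t, u1, y1, -, y2⟩ := interp h c3 ((c2 e (Submodule.subset_span (Set.mem_insert _ _))).trans
    (by simpa [he] using f2)) 0 0 (fun z => (h.1 z).map_zero ▸ by simp) (fun j : Σ f, Fin (m f) =>
      q j.1 j.2) σ s1 t0
  refine ⟨y, (m_dom h y x y1).trans_eq x1, fun f hf => ?_⟩
  let g : s := ⟨f, hf⟩
  have u2 := fun k => lt_min_iff.1 ((u1 ⟨g, k⟩).2.trans_lt (t1 g).2)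
  have h1 := m_tuple h (f + y) (fun k => q g k + t ⟨g, k⟩ • χ) (c := 1 + 6 * η) (by positivity)
    fun v hv => (Finset.sum_le_sum (g := fun k => |q g k v| + 2 * (η / (m g + 1))) fun k _ =>
      (abs_add_le _ _).trans (add_le_add_right (by
        have := (χ.unit_le_opNorm v hv).trans c1
        rw [f1, Real.norm_eq_abs] at this
        change |t ⟨g, k⟩ * χ v| ≤ _
        rw [abs_mul, abs_of_nonneg (u1 _).1]
        nlinarith [(u2 k).2, (u1 ⟨g, k⟩).1, abs_nonneg (χ v)]) _)).trans (by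
      rw [Finset.sum_add_distrib, ← Finset.mul_sum]
      linarith [q1 g v hv, m1 g])
  have h2 : ∑ k, (|ι f (q g k)| - η / (m g + 1) + |q g k x|) ≤ _ := (Finset.sum_le_sum fun k _ => by
    have s3 : |σ ⟨g, k⟩| = 1 := by
      nlinarith [abs_mul_abs_self (σ ⟨g, k⟩), abs_nonneg (σ ⟨g, k⟩), s1 ⟨g, k⟩]
    have h3 := hδ g (q g k) _ (ContinuousLinearMap.opNorm_le_of_unit_norm (by norm_num) fun v hv =>
      (Finset.single_le_sum (fun i _ => abs_nonneg (q g i v)) (Finset.mem_univ k)).trans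
        ((q1 g v hv.le).trans (by linarith))) (u1 ⟨g, k⟩).1 (u2 k).1.le
    rw [← one_mul |_|, ← s3, ← abs_mul] at h3
    rw [m_add h, y2 ⟨g, k⟩, ← one_mul |_ + _ * _|, ← s3, ← abs_mul, mul_add, ← mul_assoc, s1, one_mul]
    linarith [le_abs_self (σ ⟨g, k⟩ * ι f (q g k + t ⟨g, k⟩ • χ) + |q g k x|), (abs_le.1 h3).1,
      s2 ⟨g, k⟩]).trans h1
  rw [Finset.sum_add_distrib, Finset.sum_sub_distrib] at h2
  by_contra! h3
  nlinarith [q2 g, q3 g, m1 g]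

end

theorem result (E : Type) [NormedAddCommGroup E] [NormedSpace ℝ E] (hE : L1Pre E) :
    (∃ (X : Type) (_ : NormedAddCommGroup X) (_ : NormedSpace ℝ X) (ι : X → (E →L[ℝ] ℝ) → ℝ),
      IsModel ι) ∧ ∀ (X : Type) [NormedAddCommGroup X] [NormedSpace ℝ X] (ι : X → (E →L[ℝ] ℝ) → ℝ),
        IsModel ι → (Oct E → Oct X) ∧ (Nontrivial E → Daug E → Oct X) :=
  ⟨exists_model E, fun _ _ _ _ h => ⟨main hE h, fun _ H => main hE h (daug_oct H)⟩⟩

end Pool.Agent.Results.MP_93c18e_an.Proof
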